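import Pool.Agent.H823.PI.Grad

/-!
# The conditions on the spheres of the inner and the outer zone
-/

set_option autoImplicit false

namespace Pool.Agent.H823.PI

open scoped BigOperators Topology
open Matrix Filter Set MeasureTheory
open Pool.Agent.K4H63.PI

/-- `F` is constant on the centred sphere of radius `r`. -/
def ConstOn (F : E → ℝ) (r : ℝ) : Prop := ∃ c, ∀ w : E, ‖w‖ = 1 → F (r • w) = c

/-- On the centred sphere `S` of radius `r` one has `tr_S h = H f` and `β = df / 2` for a function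
`f`, where `β = h(ν, ·)` (for a vector `v` tangent to `S`, `β(v) = φ⁻² ∑ i, mixed h i * v i`). This is
the case if `h` is the sum of `½ L_X g` for the radial vector field `X = f ν`, of a multiple of
`ν ⊗ ν`, and of a trace-free tangential part. -/
def RadialOn (φ : ℝ → ℝ) (h : E → Matrix (Fin 3) (Fin 3) ℝ) (r : ℝ) : Prop :=
  ∃ f : E → ℝ, ∀ w : E, ‖w‖ = 1 → DifferentiableAt ℝ f (r • w) ∧
    trS φ h (r • w) = sphereH φ r * f (r • w) ∧
    ∀ v : E, inner ℝ w v = 0 →
      ((φ r) ^ 2)⁻¹ * ∑ i, mixed h i (r • w) * v i = fderiv ℝ f (r • w) v / 2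

/-- The condition on a sphere `S` of the inner zone: `tr_S h` has a zero on `S`; or it is constant
on `S`; or at one point where `|tr_S h|` is minimal over `S` one has
`(tr_S h) div_S β + H (2 |β|² + |h°|²) / 2 ≥ 0`; or `β = lam d(tr_S h)` on `S` with a function
`lam ≥ 0`; or `tr_S h = H f` and `β = df / 2` on `S` with a function `f`. -/
def InnerCond (φ : ℝ → ℝ) (h : E → Matrix (Fin 3) (Fin 3) ℝ) (r : ℝ) : Prop :=
  (∃ w : E, ‖w‖ = 1 ∧ trS φ h (r • w) = 0) ∨ ConstOn (trS φ h) r ∨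
    (∃ w : E, ‖w‖ = 1 ∧ IsMinPt φ h r w ∧ GoodAt φ h r w) ∨
    (∃ lam : E → ℝ, (∀ w : E, ‖w‖ = 1 → 0 ≤ lam w) ∧ GradOn φ h r lam) ∨ RadialOn φ h r

/-- The condition on a sphere `S` of the outer zone: `tr_S h` is constant on `S`; or at one point
where `|tr_S h|` is maximal over `S` one has `(tr_S h) div_S β + H (2 |β|² + |h°|²) / 2 ≥ 0`; or
`β = lam d(tr_S h)` on `S` with a function `lam ≤ 0`. -/
def OuterCond (φ : ℝ → ℝ) (h : E → Matrix (Fin 3) (Fin 3) ℝ) (r : ℝ) : Prop :=
  ConstOn (trS φ h) r ∨ (∃ w : E, ‖w‖ = 1 ∧ IsMaxPt φ h r w ∧ GoodAt φ h r w) ∨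
    ∃ lam : E → ℝ, (∀ w : E, ‖w‖ = 1 → lam w ≤ 0) ∧ GradOn φ h r lam

theorem meanCurv_ray (φ : ℝ → ℝ) {r : ℝ} (hr : 0 < r) {w : E} (hw : ‖w‖ = 1) :
    meanCurv φ (r • w) = sphereH φ r := by
  unfold meanCurv sphereH
  rw [ray_norm hw hr]

theorem transS_nonneg {φ : ℝ → ℝ} (hφ : Good φ) (h : E → Matrix (Fin 3) (Fin 3) ℝ) {x : E}
    (hx : x ≠ 0) : 0 ≤ transS φ h x := by
  have hp := hφ.pos _ (norm_pos_iff.2 hx)
  have := transverse_nonneg h hx
  unfold transS
  positivity

theorem trS_abs_le {φ : ℝ → ℝ} (hφ : Good φ) (h : E → Matrix (Fin 3) (Fin 3) ℝ) {r : ℝ}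
    (hr : 0 < r) {v w : E} (hv : ‖v‖ = 1) (hw : ‖w‖ = 1)
    (hu : |qq h (r • v)| ≤ |qq h (r • w)|) : |trS φ h (r • v)| ≤ |trS φ h (r • w)| := by
  have hp := hφ.pos r hr
  unfold trS
  rw [ray_norm hv hr, ray_norm hw hr, abs_mul, abs_mul]
  exact mul_le_mul_of_nonneg_left hu (abs_nonneg _)

/-- The condition from the sign of the divergence. -/
theorem good_of_sign {φ : ℝ → ℝ} (hφ : Good φ) (h : E → Matrix (Fin 3) (Fin 3) ℝ) {r : ℝ}
    (hr : 0 < r) (hH : 0 ≤ sphereH φ r) {w : E} (hw : ‖w‖ = 1) {s : ℝ}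
    (hs : s * qq h (r • w) = |qq h (r • w)|) (hs2 : s * s = 1)
    (hd : 0 ≤ s * divMixed h (r • w)) : GoodAt φ h r w := by
  have hp := hφ.pos r hr
  have h1 := transS_nonneg hφ h (ray_ne hw hr)
  unfold GoodAt
  rw [meanCurv_ray φ hr hw]
  have h2 : trS φ h (r • w) * divS φ h (r • w) = ((φ r) ^ 10)⁻¹ *
      ((s * qq h (r • w)) * (s * divMixed h (r • w))) := by
    unfold trS divS
    rw [ray_norm hw hr]
    have e : (s * qq h (r • w)) * (s * divMixed h (r • w)) =
        qq h (r • w) * divMixed h (r • w) := by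
      linear_combination (qq h (r • w) * divMixed h (r • w)) * hs2
    rw [e]
    field_simp
  rw [h2, hs]
  have := abs_nonneg (qq h (r • w))
  positivity

theorem exists_sign (q : ℝ) : ∃ s : ℝ, s * q = |q| ∧ s * s = 1 := by
  rcases le_total 0 q with h | h
  · exact ⟨1, by rw [one_mul, abs_of_nonneg h], by norm_num⟩
  · exact ⟨-1, by rw [abs_of_nonpos h]; ring, by norm_num⟩

theorem mul_le_abs_of_sign {s : ℝ} (hs : s * s = 1) (q : ℝ) : s * q ≤ |q| := by
  have : |s| = 1 := by
    have h1 : |s| * |s| = 1 := by rw [abs_mul_abs_self, hs]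
    nlinarith [abs_nonneg s]
  calc s * q ≤ |s * q| := le_abs_self _
    _ = |q| := by rw [abs_mul, this, one_mul]

/-- Tangential derivatives depend only on the values on the sphere. -/
theorem fderiv_tangential {F G : E → ℝ} {r : ℝ} {w : E} (hw : ‖w‖ = 1)
    (hF : DifferentiableAt ℝ F (r • w)) (hG : DifferentiableAt ℝ G (r • w)) (hr : 0 < r)
    (hFG : ∀ v : E, ‖v‖ = 1 → F (r • v) = G (r • v)) {v : E} (hv : inner ℝ w v = 0) :
    fderiv ℝ F (r • w) v = fderiv ℝ G (r • w) v := by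
  by_cases h0 : v = 0
  · subst h0
    rw [map_zero, map_zero]
  · have hn : 0 < ‖v‖ := norm_pos_iff.2 h0
    set u : E := ‖v‖⁻¹ • v with hu
    have hu1 : ‖u‖ = 1 := by rw [hu, norm_smul, norm_inv, norm_norm, inv_mul_cancel₀ hn.ne']
    have hwu : inner ℝ w u = 0 := by rw [hu, inner_smul_right, hv, mul_zero]
    have hc := circ_inner hw hu1 hwu
    have e0 : circ w u 0 = w := by simp [circ]
    have e0' : circ' w u 0 = u := by simp [circ']
    have key : ∀ K : E → ℝ, DifferentiableAt ℝ K (r • w) →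
        HasDerivAt (fun t => K (r • circ w u t)) (fderiv ℝ K (r • w) (r • u)) 0 := by
      intro K hK
      have d1 : HasDerivAt (fun t => r • circ w u t) (r • circ' w u 0) 0 :=
        (circ_deriv w u 0).const_smul r
      rw [e0'] at d1
      exact HasFDerivAt.comp_hasDerivAt (f := fun t => r • circ w u t) 0
        (by rw [e0]; exact hK.hasFDerivAt) d1
    have h1 := key F hF
    have h2 := key G hG
    have e1 : (fun t => F (r • circ w u t)) = fun t => G (r • circ w u t) := by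
      funext t
      exact hFG _ (hc t).1
    rw [e1] at h1
    have h3 := h1.unique h2
    have e3 : ∀ (L : E →L[ℝ] ℝ) (t : ℝ) (y : E), L (t • y) = t * L y := fun L t y => by
      rw [map_smul, smul_eq_mul]
    rw [e3 _ r u, e3 _ r u] at h3
    have h4 := mul_left_cancel₀ hr.ne' h3
    have e2 : v = ‖v‖ • u := by rw [hu, smul_smul, mul_inv_cancel₀ hn.ne', one_smul]
    rw [e2, e3 _ ‖v‖ u, e3 _ ‖v‖ u, h4]

theorem inner_good {φ : ℝ → ℝ} (hφ : Good φ) {h : E → Matrix (Fin 3) (Fin 3) ℝ} (H : Tensor h)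
    {r : ℝ} (hr : 0 < r) (hH : 0 ≤ sphereH φ r) (hc : InnerCond φ h r) :
    ∃ w : E, ‖w‖ = 1 ∧ IsMinPt φ h r w ∧ GoodAt φ h r w := by
  have zero_case : ∀ w : E, ‖w‖ = 1 → trS φ h (r • w) = 0 →
      ∃ w : E, ‖w‖ = 1 ∧ IsMinPt φ h r w ∧ GoodAt φ h r w := by
    intro w hw h0
    refine ⟨w, hw, fun v _ => ?_, ?_⟩
    · rw [h0, abs_zero]; exact abs_nonneg _
    · have h1 := transS_nonneg hφ h (ray_ne hw hr)
      unfold GoodAt
      rw [h0, zero_mul, meanCurv_ray φ hr hw]
      positivity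
  have hc : (∃ w : E, ‖w‖ = 1 ∧ trS φ h (r • w) = 0) ∨ ConstOn (trS φ h) r ∨
      (∃ w : E, ‖w‖ = 1 ∧ IsMinPt φ h r w ∧ GoodAt φ h r w) ∨
      (∃ lam : E → ℝ, (∀ w : E, ‖w‖ = 1 → 0 ≤ lam w) ∧ GradOn φ h r lam) := by
    rcases hc with hc | hc | hc | hc | ⟨f, hf⟩
    · exact Or.inl hc
    · exact Or.inr (Or.inl hc)
    · exact Or.inr (Or.inr (Or.inl hc))
    · exact Or.inr (Or.inr (Or.inr hc))
    · rcases eq_or_lt_of_le hH with hz | hpos
      · refine Or.inl ⟨EuclideanSpace.single 0 1, by simp, ?_⟩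
        rw [(hf _ (by simp)).2.1, ← hz, zero_mul]
      · refine Or.inr (Or.inr (Or.inr ⟨fun _ => (φ r) ^ 2 / (2 * sphereH φ r), fun _ _ => ?_, ?_⟩))
        · have := hφ.pos r hr
          positivity
        · intro w hw v hv
          have hp := hφ.pos r hr
          obtain ⟨hd, _, hb⟩ := hf w hw
          have e1 : fderiv ℝ (trS φ h) (r • w) v =
              fderiv ℝ (fun y => sphereH φ r * f y) (r • w) v :=
            fderiv_tangential hw (trS_diff hφ H (ray_ne hw hr)) (hd.const_mul _) hr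
              (fun v hv => (hf v hv).2.1) hv
          rw [e1, fderiv_const_mul hd, ContinuousLinearMap.smul_apply, smul_eq_mul]
          have e2 := hb v hv
          have e3 : ∑ i, mixed h i (r • w) * v i = (φ r) ^ 2 * (fderiv ℝ f (r • w) v / 2) := by
            rw [← e2]
            field_simp
          rw [e3]
          field_simp
  rcases hc with ⟨w, hw, h0⟩ | hc | hc | ⟨lam, hl, hG⟩
  · exact zero_case w hw h0
  · obtain ⟨w, hw, h1⟩ := peakAt_of_const hφ H hr hH hc
    obtain ⟨c, hc⟩ := hc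
    exact ⟨w, hw, fun v hv => by rw [hc v hv, hc w hw], h1.2⟩
  · exact hc
  · obtain ⟨⟨w, hw, h1⟩, h2⟩ := valley_spec H hr
    have hmin : ∀ v : E, ‖v‖ = 1 → |qq h (r • w)| ≤ |qq h (r • v)| := fun v hv => by
      rw [← h1]; exact h2 v hv
    by_cases h0 : qq h (r • w) = 0
    · exact zero_case w hw (by unfold trS; rw [h0, mul_zero])
    · obtain ⟨s, hs, hs2⟩ := exists_sign (qq h (r • w))
      refine ⟨w, hw, fun v hv => trS_abs_le hφ h hr hw hv (hmin v hv), ?_⟩
      refine good_of_sign hφ h hr hH hw hs hs2 ?_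
      have h3 := div_sign hφ H hr hG (s := s) (σ := 1)
        (fun v hv => by rw [one_mul]; exact hl v hv) hw (by
          have hcont : ContinuousAt (fun v : E => s * qq h (r • v)) w := by
            have e1 : ContinuousAt (fun v : E => qq h (r • v)) w :=
              ContinuousAt.comp (g := qq h) (f := fun v : E => r • v)
                (H.qq_diff (ray_ne hw hr)).continuousAt (continuous_const_smul r).continuousAt
            exact continuousAt_const.mul e1
          have hpos : 0 < s * qq h (r • w) := by rw [hs]; exact abs_pos.2 h0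
          filter_upwards [hcont.eventually (lt_mem_nhds hpos)] with v hv hv1
          have e2 : |qq h (r • v)| = s * qq h (r • v) := by
            rw [← abs_of_pos hv, abs_mul]
            have : |s| = 1 := by
              have h1 : |s| * |s| = 1 := by rw [abs_mul_abs_self, hs2]
              nlinarith [abs_nonneg s]
            rw [this, one_mul]
          rw [hs, ← e2]
          exact hmin v hv1)
      rwa [one_mul] at h3

theorem outer_good {φ : ℝ → ℝ} (hφ : Good φ) {h : E → Matrix (Fin 3) (Fin 3) ℝ} (H : Tensor h)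
    {r : ℝ} (hr : 0 < r) (hH : 0 ≤ sphereH φ r) (hc : OuterCond φ h r) :
    ∃ w : E, ‖w‖ = 1 ∧ IsMaxPt φ h r w ∧ GoodAt φ h r w := by
  rcases hc with hc | hc | ⟨lam, hl, hG⟩
  · obtain ⟨w, hw, h1⟩ := peakAt_of_const hφ H hr hH hc
    exact ⟨w, hw, h1⟩
  · exact hc
  · obtain ⟨⟨w, hw, h1⟩, h2⟩ := peak_spec H hr
    have hmax : ∀ v : E, ‖v‖ = 1 → |qq h (r • v)| ≤ |qq h (r • w)| := fun v hv => by
      rw [← h1]; exact h2 v hv
    obtain ⟨s, hs, hs2⟩ := exists_sign (qq h (r • w))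
    refine ⟨w, hw, fun v hv => trS_abs_le hφ h hr hv hw (hmax v hv), ?_⟩
    refine good_of_sign hφ h hr hH hw hs hs2 ?_
    have h3 := div_sign hφ H hr hG (s := -s) (σ := -1)
      (fun v hv => by have := hl v hv; linarith) hw (by
        filter_upwards with v hv
        have := mul_le_abs_of_sign hs2 (qq h (r • v))
        have := hmax v hv
        rw [neg_mul, neg_mul, hs]
        linarith)
    rwa [neg_mul_neg, one_mul] at h3

end Pool.Agent.H823.PI
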