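import Pool.Agent.H823.PI.Main
import Pool.Graph.R_pool_sql_team_seeded_c8625f6e.K4H63.PI.Main2

/-!
# Mixed parts proportional to the gradient of the trace
-/

set_option autoImplicit false

namespace Pool.Agent.H823.PI

open scoped BigOperators Topology
open Matrix Filter Set MeasureTheory
open Pool.Agent.K4H63.PI

theorem ext_sign {f f' G μ : ℝ → ℝ} {G' : ℝ} (hf : ∀ t, HasDerivAt f (f' t) t)
    (hmin : ∀ᶠ t in 𝓝 0, f 0 ≤ f t) (hμ : ∀ t, 0 ≤ μ t)
    (hG : ∀ t, G t = μ t * f' t) (dG : HasDerivAt G G' 0) : 0 ≤ G' := by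
  have h0 : f' 0 = 0 := (IsLocalMin.hasDerivAt_eq_zero (f := f) hmin (hf 0))
  have hG0 : G 0 = 0 := by rw [hG, h0, mul_zero]
  have h1 : Tendsto (fun t => t⁻¹ * G t) (𝓝[>] 0) (𝓝 G') := by
    have h2 := (hasDerivAt_iff_tendsto_slope.1 dG).mono_left
      (nhdsWithin_mono (0:ℝ) (fun y (hy : y ∈ Ioi (0:ℝ)) => ne_of_gt hy))
    refine h2.congr' ?_
    filter_upwards with t
    rw [slope_def_field, hG0]
    simp only [sub_zero]
    ring
  by_contra hneg
  have hneg := not_le.1 hneg
  have h3 : ∀ᶠ t in 𝓝[>] (0:ℝ), t⁻¹ * G t < 0 := h1.eventually_lt_const hneg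
  have h4 : ∀ᶠ t in 𝓝[>] (0:ℝ), f 0 ≤ f t := hmin.filter_mono nhdsWithin_le_nhds
  obtain ⟨ε, hε, h5⟩ := mem_nhdsGT_iff_exists_Ioo_subset.1 (h3.and h4)
  have hε : (0:ℝ) < ε := hε
  have h6 := h5 (show ε / 2 ∈ Ioo 0 ε from ⟨by positivity, by linarith⟩)
  obtain ⟨ξ, hξ, h7⟩ := exists_hasDerivAt_eq_slope f f' (show (0:ℝ) < ε / 2 by positivity)
    (fun t _ => (hf t).continuousAt.continuousWithinAt) (fun t _ => hf t)
  have h8 : 0 ≤ f' ξ := by
    rw [h7]
    exact div_nonneg (sub_nonneg.2 h6.2) (by linarith)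
  have h9 := (h5 (show ξ ∈ Ioo 0 ε from ⟨hξ.1, by linarith [hξ.2]⟩)).1
  rw [hG] at h9
  have : 0 ≤ ξ⁻¹ * (μ ξ * f' ξ) := by
    have := hμ ξ
    have := hξ.1
    positivity
  exact absurd this (not_le.2 h9)

/-- The great circle through `w` in the direction `u`. -/
noncomputable def circ (w u : E) (t : ℝ) : E := Real.cos t • w + Real.sin t • u

noncomputable def circ' (w u : E) (t : ℝ) : E := (-Real.sin t) • w + Real.cos t • u

theorem circ_deriv (w u : E) (t : ℝ) : HasDerivAt (circ w u) (circ' w u t) t :=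
  ((Real.hasDerivAt_cos t).smul_const w).add ((Real.hasDerivAt_sin t).smul_const u)

theorem circ'_deriv (w u : E) (t : ℝ) : HasDerivAt (circ' w u) (-circ w u t) t := by
  have := ((Real.hasDerivAt_sin t).neg.smul_const w).add ((Real.hasDerivAt_cos t).smul_const u)
  refine HasDerivAt.congr_deriv (f := circ' w u) this ?_
  unfold circ
  rw [neg_add, neg_smul, neg_smul]

theorem circ_inner {w u : E} (hw : ‖w‖ = 1) (hu : ‖u‖ = 1) (h : inner ℝ w u = 0) (t : ℝ) :
    ‖circ w u t‖ = 1 ∧ inner ℝ (circ w u t) (circ' w u t) = 0 := by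
  have h1 : inner ℝ w w = (1:ℝ) := by rw [real_inner_self_eq_norm_sq, hw, one_pow]
  have h2 : inner ℝ u u = (1:ℝ) := by rw [real_inner_self_eq_norm_sq, hu, one_pow]
  have h3 : inner ℝ u w = (0:ℝ) := by rw [real_inner_comm, h]
  constructor
  · have : ‖circ w u t‖ ^ 2 = 1 := by
      rw [← real_inner_self_eq_norm_sq]
      unfold circ
      simp only [inner_add_left, inner_add_right, real_inner_smul_left, real_inner_smul_right,
        h, h1, h2, h3]
      have := Real.sin_sq_add_cos_sq t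
      linear_combination this
    nlinarith [norm_nonneg (circ w u t)]
  · unfold circ circ'
    simp only [inner_add_left, inner_add_right, real_inner_smul_left, real_inner_smul_right,
      h, h1, h2, h3]
    ring

theorem trS_diff {φ : ℝ → ℝ} (hφ : Good φ) {h : E → Matrix (Fin 3) (Fin 3) ℝ} (H : Tensor h)
    {x : E} (hx : x ≠ 0) : DifferentiableAt ℝ (trS φ h) x := by
  have hr : 0 < ‖x‖ := norm_pos_iff.2 hx
  have hp := hφ.pos _ hr
  have h1 : DifferentiableAt ℝ (fun y : E => φ ‖y‖) x :=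
    (hasFDerivAt_radial hx (hφ.diff hr).hasDerivAt).differentiableAt
  exact ((h1.pow 4).inv (pow_ne_zero 4 hp.ne')).mul (H.qq_diff hx)

/-- On the centred sphere of radius `r` the mixed part of `h` is `lam` times the differential of
`tr_S h`: both are applied to the vectors `v` tangent to the sphere at `r w`. -/
def GradOn (φ : ℝ → ℝ) (h : E → Matrix (Fin 3) (Fin 3) ℝ) (r : ℝ) (lam : E → ℝ) : Prop :=
  ∀ w : E, ‖w‖ = 1 → ∀ v : E, inner ℝ w v = 0 →
    ∑ i, mixed h i (r • w) * v i = lam w * fderiv ℝ (trS φ h) (r • w) v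

/-- The quadratic form of the derivative of the mixed part at an extremum of the trace. -/
theorem quad_sign {φ : ℝ → ℝ} (hφ : Good φ) {h : E → Matrix (Fin 3) (Fin 3) ℝ} (H : Tensor h)
    {r : ℝ} (hr : 0 < r) {lam : E → ℝ} (hG : GradOn φ h r lam) {s σ : ℝ}
    (hlam : ∀ v : E, ‖v‖ = 1 → 0 ≤ σ * lam v) {w : E} (hw : ‖w‖ = 1)
    (hmin : ∀ᶠ v in 𝓝 w, ‖v‖ = 1 → s * qq h (r • w) ≤ s * qq h (r • v)) {u : E} (hu : ‖u‖ = 1)
    (huw : inner ℝ w u = 0) :
    0 ≤ σ * s * ∑ i, ∑ j, pd j (mixed h i) (r • w) * u j * u i := by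
  have hp := hφ.pos r hr
  have hc := circ_inner hw hu huw
  have h0 : circ w u 0 = w := by simp [circ]
  have h0' : circ' w u 0 = u := by simp [circ']
  have hx : ∀ t, r • circ w u t ≠ 0 := fun t => ray_ne (hc t).1 hr
  have dγ : ∀ t, HasDerivAt (fun t => r • circ w u t) (r • circ' w u t) t := fun t =>
    (circ_deriv w u t).const_smul r
  have dq : ∀ t, HasDerivAt (fun t => qq h (r • circ w u t))
      (fderiv ℝ (qq h) (r • circ w u t) (r • circ' w u t)) t := fun t =>
    HasFDerivAt.comp_hasDerivAt (f := fun t => r • circ w u t) t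
      (H.qq_diff (hx t)).hasFDerivAt (dγ t)
  have dT : ∀ t, r * fderiv ℝ (trS φ h) (r • circ w u t) (circ' w u t) =
      ((φ r) ^ 4)⁻¹ * fderiv ℝ (qq h) (r • circ w u t) (r • circ' w u t) := by
    intro t
    have e1 : HasDerivAt (fun t => trS φ h (r • circ w u t))
        (fderiv ℝ (trS φ h) (r • circ w u t) (r • circ' w u t)) t :=
      HasFDerivAt.comp_hasDerivAt (f := fun t => r • circ w u t) t
        (trS_diff hφ H (hx t)).hasFDerivAt (dγ t)
    have e2 : HasDerivAt (fun t => trS φ h (r • circ w u t))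
        (((φ r) ^ 4)⁻¹ * fderiv ℝ (qq h) (r • circ w u t) (r • circ' w u t)) t := by
      have e3 := (dq t).const_mul (((φ r) ^ 4)⁻¹)
      have e4 : (fun t => trS φ h (r • circ w u t)) =
          fun t => ((φ r) ^ 4)⁻¹ * qq h (r • circ w u t) := by
        funext t
        unfold trS
        rw [ray_norm (hc t).1 hr]
      rw [e4]
      exact e3
    have e5 := e1.unique e2
    rw [map_smul, smul_eq_mul] at e5
    exact e5
  have dM : HasDerivAt (fun t => σ * s * ∑ i, mixed h i (r • circ w u t) * circ' w u t i)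
      (σ * s * ∑ i, (fderiv ℝ (mixed h i) (r • w) (r • u) * u i + mixed h i (r • w) * (-w i))) 0 := by
    refine HasDerivAt.const_mul (σ * s) (HasDerivAt.fun_sum fun i _ => ?_)
    have e1 : HasDerivAt (fun t => mixed h i (r • circ w u t))
        (fderiv ℝ (mixed h i) (r • circ w u 0) (r • circ' w u 0)) 0 :=
      HasFDerivAt.comp_hasDerivAt (f := fun t => r • circ w u t) 0
        (smooth_diff (mixed_contDiffOn H i) (hx 0)).hasFDerivAt (dγ 0)
    have e2 : HasDerivAt (fun t => circ' w u t i) ((-circ w u 0) i) 0 :=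
      HasFDerivAt.comp_hasDerivAt (f := circ' w u) 0
        ((EuclideanSpace.proj i : E →L[ℝ] ℝ).hasFDerivAt (x := circ' w u 0)) (circ'_deriv w u 0)
    have e3 := e1.fun_mul e2
    rw [h0, h0'] at e3
    exact e3
  have key := ext_sign (f := fun t => s * qq h (r • circ w u t))
    (f' := fun t => s * fderiv ℝ (qq h) (r • circ w u t) (r • circ' w u t))
    (μ := fun t => σ * lam (circ w u t) * ((φ r) ^ 4)⁻¹ * r⁻¹)
    (fun t => (dq t).const_mul s)
    (by
      have hcont : ContinuousAt (circ w u) 0 := (circ_deriv w u 0).continuousAt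
      have e1 : Tendsto (circ w u) (𝓝 0) (𝓝 w) := by
        have := hcont.tendsto
        rwa [h0] at this
      filter_upwards [e1.eventually hmin] with t ht
      rw [h0]
      exact ht (hc t).1)
    (fun t => by
      have := hlam _ (hc t).1
      positivity)
    (fun t => by
      have e1 := hG _ (hc t).1 _ (hc t).2
      have e2 := dT t
      show σ * s * ∑ i, mixed h i (r • circ w u t) * circ' w u t i = _
      rw [e1]
      have e3 : fderiv ℝ (trS φ h) (r • circ w u t) (circ' w u t) =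
          r⁻¹ * (((φ r) ^ 4)⁻¹ * fderiv ℝ (qq h) (r • circ w u t) (r • circ' w u t)) := by
        rw [← e2]
        field_simp
      rw [e3]
      ring)
    dM
  have e1 : ∑ i, mixed h i (r • w) * (-w i) = 0 := by
    have := mixed_tangential h (ray_ne hw hr)
    have e2 : ∑ i, mixed h i (r • w) * (-w i) = -(r⁻¹ * ∑ i, mixed h i (r • w) * (r • w) i) := by
      rw [Finset.mul_sum, ← Finset.sum_neg_distrib]
      refine Finset.sum_congr rfl fun i _ => ?_
      rw [PiLp.smul_apply, smul_eq_mul]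
      field_simp
    rw [e2, this]
    simp
  rw [Finset.sum_add_distrib, e1, add_zero] at key
  have e2 : σ * s * ∑ i, fderiv ℝ (mixed h i) (r • w) (r • u) * u i =
      r * (σ * s * ∑ i, ∑ j, pd j (mixed h i) (r • w) * u j * u i) := by
    rw [mul_left_comm]
    congr 1
    rw [Finset.mul_sum]
    refine Finset.sum_congr rfl fun i _ => ?_
    rw [map_smul, smul_eq_mul, fderiv_eq_sum, mul_assoc, Finset.sum_mul]
  rw [e2] at key
  exact nonneg_of_mul_nonneg_right key hr

theorem quad_sign' {φ : ℝ → ℝ} (hφ : Good φ) {h : E → Matrix (Fin 3) (Fin 3) ℝ} (H : Tensor h)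
    {r : ℝ} (hr : 0 < r) {lam : E → ℝ} (hG : GradOn φ h r lam) {s σ : ℝ}
    (hlam : ∀ v : E, ‖v‖ = 1 → 0 ≤ σ * lam v) {w : E} (hw : ‖w‖ = 1)
    (hmin : ∀ᶠ v in 𝓝 w, ‖v‖ = 1 → s * qq h (r • w) ≤ s * qq h (r • v)) {u : E}
    (huw : inner ℝ w u = 0) :
    0 ≤ σ * s * ∑ i, ∑ j, pd j (mixed h i) (r • w) * u j * u i := by
  by_cases h0 : u = 0
  · subst h0
    simp
  · have hn : 0 < ‖u‖ := norm_pos_iff.2 h0
    have h1 := quad_sign hφ H hr hG hlam hw hmin (u := ‖u‖⁻¹ • u)
      (by rw [norm_smul, norm_inv, norm_norm, inv_mul_cancel₀ hn.ne'])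
      (by rw [inner_smul_right, huw, mul_zero])
    have h2 : σ * s * ∑ i, ∑ j, pd j (mixed h i) (r • w) * u j * u i = ‖u‖ ^ 2 *
        (σ * s * ∑ i, ∑ j, pd j (mixed h i) (r • w) * (‖u‖⁻¹ • u) j * (‖u‖⁻¹ • u) i) := by
      rw [mul_left_comm]
      congr 1
      rw [Finset.mul_sum]
      refine Finset.sum_congr rfl fun i _ => ?_
      rw [Finset.mul_sum]
      refine Finset.sum_congr rfl fun j _ => ?_
      rw [PiLp.smul_apply, PiLp.smul_apply, smul_eq_mul, smul_eq_mul]
      field_simp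
    rw [h2]
    positivity

/-- The divergence of the mixed part at an extremum of the trace. -/
theorem div_sign {φ : ℝ → ℝ} (hφ : Good φ) {h : E → Matrix (Fin 3) (Fin 3) ℝ} (H : Tensor h)
    {r : ℝ} (hr : 0 < r) {lam : E → ℝ} (hG : GradOn φ h r lam) {s σ : ℝ}
    (hlam : ∀ v : E, ‖v‖ = 1 → 0 ≤ σ * lam v) {w : E} (hw : ‖w‖ = 1)
    (hmin : ∀ᶠ v in 𝓝 w, ‖v‖ = 1 → s * qq h (r • w) ≤ s * qq h (r • v)) :
    0 ≤ σ * s * divMixed h (r • w) := by
  have hx := ray_ne hw hr
  -- the radial part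
  have h1 : ∑ i, ∑ j, w i * w j * pd j (mixed h i) (r • w) = 0 := by
    have e1 : dr (fun y => ∑ i, mixed h i y * un i y) (r • w) = 0 := by
      have : (fun y => ∑ i, mixed h i y * un i y) =ᶠ[𝓝 (r • w)] fun _ => (0:ℝ) := by
        filter_upwards [isOpen_compl_singleton.mem_nhds hx] with y hy
        have e2 := mixed_tangential h (x := y) hy
        have hy0 : ‖y‖ ≠ 0 := norm_ne_zero_iff.2 hy
        have e3 : ∑ i, mixed h i y * un i y = ‖y‖⁻¹ * ∑ i, mixed h i y * y i := by
          rw [Finset.mul_sum]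
          refine Finset.sum_congr rfl fun i _ => ?_
          unfold un
          ring
        rw [e3, e2, mul_zero]
      rw [dr_congr this]
      unfold dr
      simp [pd_const]
    have e4 : dr (fun y => ∑ i, mixed h i y * un i y) (r • w) =
        ∑ i, un i (r • w) * dr (mixed h i) (r • w) := by
      have dm : ∀ i, DifferentiableAt ℝ (mixed h i) (r • w) := fun i =>
        smooth_diff (mixed_contDiffOn H i) hx
      have du : ∀ i, DifferentiableAt ℝ (un i) (r • w) := fun i => smooth_diff (un_smooth i) hx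
      have e5 : dr (fun y => ∑ i, mixed h i y * un i y) (r • w) =
          ∑ i, dr (fun y => mixed h i y * un i y) (r • w) := by
        unfold dr
        rw [Finset.sum_comm]
        refine Finset.sum_congr rfl fun k _ => ?_
        rw [pd_sum (F := fun i y => mixed h i y * un i y) fun i => (dm i).mul (du i),
          Finset.mul_sum]
      rw [e5]
      refine Finset.sum_congr rfl fun i _ => ?_
      rw [dr_mul (dm i) (du i), dr_un hx, mul_zero, zero_add]
    rw [e1] at e4
    rw [e4]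
    refine Finset.sum_congr rfl fun i _ => ?_
    rw [un_ray hw hr]
    unfold dr
    rw [Finset.mul_sum]
    refine Finset.sum_congr rfl fun j _ => ?_
    have : (r • w) j / ‖r • w‖ = w j := un_ray hw hr j
    rw [this]
    ring
  have hsum : ∑ i, w i ^ 2 = (1:ℝ) ^ 2 := by rw [sum_sq_eq, hw]
  have h2 := proj_sum' (fun i j => pd j (mixed h i) (r • w)) (fun i => w i) one_ne_zero hsum
  simp only [one_pow, div_one] at h2
  rw [h1, sub_zero] at h2
  have h3 : divMixed h (r • w) = ∑ k, ∑ i, ∑ j, pd j (mixed h i) (r • w) *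
      (kd k j - w k * w j) * (kd k i - w k * w i) := by
    rw [h2]
    rfl
  rw [h3, Finset.mul_sum]
  refine Finset.sum_nonneg fun k _ => ?_
  set v : E := EuclideanSpace.single k 1 - (w k) • w with hv
  have v1 : inner ℝ w v = 0 := by
    rw [hv, inner_sub_right, inner_smul_right, real_inner_self_eq_norm_sq,
      EuclideanSpace.inner_single_right, hw]
    simp
  have v3 : ∀ i, v i = kd k i - w k * w i := by
    intro i
    simp [hv, kd, Pi.single_apply, eq_comm]
  have h4 := quad_sign' hφ H hr hG hlam hw hmin v1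
  simp only [v3] at h4
  exact h4

end Pool.Agent.H823.PI
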