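import Pool.Agent.H823.PI.Zones

/-!
# The Penrose inequality with four zones
-/

set_option autoImplicit false

namespace Pool.Agent.H823.PI

open scoped BigOperators Topology
open Matrix Filter Set MeasureTheory
open Pool.Agent.K4H63.PI

/-- `r w` is a point of the centred sphere where `|tr_S h|` is minimal. -/
def IsMinPt (φ : ℝ → ℝ) (h : E → Matrix (Fin 3) (Fin 3) ℝ) (r : ℝ) (w : E) : Prop :=
  ∀ v : E, ‖v‖ = 1 → |trS φ h (r • w)| ≤ |trS φ h (r • v)|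

/-- `r w` is a point of the centred sphere where `|tr_S h|` is maximal. -/
def IsMaxPt (φ : ℝ → ℝ) (h : E → Matrix (Fin 3) (Fin 3) ℝ) (r : ℝ) (w : E) : Prop :=
  ∀ v : E, ‖v‖ = 1 → |trS φ h (r • v)| ≤ |trS φ h (r • w)|

/-- The data of a mass function which lies between those of the minimum and of the maximum. -/
structure Between (h : E → Matrix (Fin 3) (Fin 3) ℝ) (q : ℝ → ℝ) : Prop where
  cont : ∀ r, 0 < r → ContinuousAt q r
  ge : ∀ r, 0 < r → valley h r ≤ |q r|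
  le : ∀ r, 0 < r → |q r| ≤ peak h r

theorem zones_theorem {φ : ℝ → ℝ} {h : E → Matrix (Fin 3) (Fin 3) ℝ} {m : ℝ} (hφ : Good φ)
    (H : Tensor h) (flat : FlatEnd φ m) (decay : Decay h) {r₁ : ℝ} (hr₁ : 0 < r₁)
    (dec : ∀ x : E, r₁ ≤ ‖x‖ → momentumNorm (metric φ) h x ≤ energy (metric φ) h x)
    (R₀ R₁ R₂ : EReal) {q₂ : ℝ → ℝ} (hq₂ : Between h q₂)
    (core : ∀ x : E, r₁ < ‖x‖ → (‖x‖ : EReal) < R₀ → 0 ≤ scal (metric φ) x)
    (inner : ∀ r : ℝ, r₁ < r → R₀ < r → (r : EReal) < R₁ →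
      (∃ v : E, ‖v‖ = 1 ∧ |trS φ h (r • v)| ≤ sphereH φ r) →
      ∃ w : E, ‖w‖ = 1 ∧ IsMinPt φ h r w ∧ GoodAt φ h r w)
    (middle : ∀ r : ℝ, r₁ < r → R₁ < r → (r : EReal) < R₂ →
      |r * q₂ r| < 2 * (φ r) ^ 2 * pp φ r → ∃ g', HasDerivAt (FF φ q₂) g' r ∧ 0 ≤ g')
    (outer : ∀ r : ℝ, r₁ < r → R₂ < r → (∀ v : E, ‖v‖ = 1 → |trS φ h (r • v)| ≤ sphereH φ r) →
      ∃ w : E, ‖w‖ = 1 ∧ IsMaxPt φ h r w ∧ GoodAt φ h r w)
    (t0 : (r₁ : EReal) < R₀ → sphereH φ r₁ ≤ 0)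
    (t1 : R₀ ≤ r₁ → (r₁ : EReal) < R₁ → ∀ w : E, ‖w‖ = 1 → sphereH φ r₁ ≤ |trS φ h (r₁ • w)|)
    (t2 : R₁ ≤ r₁ → (r₁ : EReal) < R₂ → 2 * (φ r₁) ^ 2 * pp φ r₁ ≤ |r₁ * q₂ r₁|)
    (t3 : R₂ ≤ r₁ → ∃ w : E, ‖w‖ = 1 ∧ sphereH φ r₁ ≤ |trS φ h (r₁ • w)|) :
    ∃ r₀, r₁ ≤ r₀ ∧ Real.sqrt (sphereArea φ r₀ / (16 * Real.pi)) ≤ m := by
  obtain ⟨C, hC⟩ := decay
  have hqb : ∀ r : ℝ, 1 ≤ r → ∀ w : E, ‖w‖ = 1 → |qq h (r • w)| ≤ 12 * C / r ^ 2 := by
    intro r hr w hw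
    have h0 : 0 < r := by linarith
    have h2 := hC (r • w) (by rw [ray_norm hw h0]; exact hr)
    rw [ray_norm hw h0] at h2
    calc |qq h (r • w)| ≤ 12 * (C / r ^ 2) := qq_bound (ray_ne hw h0) h2
      _ = 12 * C / r ^ 2 := by ring
  set q₀ : ℝ → ℝ := fun _ => 0 with hq0
  set q₁ := valley h with hq1
  set q₃ := peak h with hq3
  have v0 : ∀ r, 0 < r → 0 ≤ q₁ r := by
    intro r hr
    obtain ⟨⟨w, hw, h1⟩, _⟩ := valley_spec H hr
    rw [hq1, h1]; exact abs_nonneg _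
  have p0 : ∀ r, 0 < r → 0 ≤ q₃ r := by
    intro r hr
    obtain ⟨⟨w, hw, h1⟩, _⟩ := peak_spec H hr
    rw [hq3, h1]; exact abs_nonneg _
  have le01 : ∀ r, 0 < r → |q₀ r| ≤ |q₁ r| := by
    intro r _
    rw [hq0, abs_zero]; exact abs_nonneg _
  have le12 : ∀ r, 0 < r → |q₁ r| ≤ |q₂ r| := by
    intro r hr
    rw [abs_of_nonneg (v0 r hr)]
    exact hq₂.ge r hr
  have le23 : ∀ r, 0 < r → |q₂ r| ≤ |q₃ r| := by
    intro r hr
    rw [abs_of_nonneg (p0 r hr)]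
    exact hq₂.le r hr
  have b3 : ∀ r : ℝ, 1 ≤ r → |q₃ r| ≤ 12 * C / r ^ 2 := by
    intro r hr
    have h0 : 0 < r := by linarith
    obtain ⟨⟨w, hw, h1⟩, _⟩ := peak_spec H h0
    rw [hq3, h1, abs_abs]
    exact hqb r hr w hw
  have b2 : ∀ r : ℝ, 1 ≤ r → |q₂ r| ≤ 12 * C / r ^ 2 := fun r hr =>
    (le23 r (by linarith)).trans (b3 r hr)
  have b1 : ∀ r : ℝ, 1 ≤ r → |q₁ r| ≤ 12 * C / r ^ 2 := fun r hr =>
    (le12 r (by linarith)).trans (b2 r hr)
  have b0 : ∀ r : ℝ, 1 ≤ r → |q₀ r| ≤ 12 * C / r ^ 2 := fun r hr =>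
    (le01 r (by linarith)).trans (b1 r hr)
  have lim : ∀ q : ℝ → ℝ, (∀ r : ℝ, 1 ≤ r → |q r| ≤ 12 * C / r ^ 2) →
      Tendsto (FF φ q) atTop (𝓝 (2 * m)) := by
    intro q hb
    have := (flat.YY hφ).add (tendsto_sq_term flat.one hb)
    rw [add_zero] at this
    exact this
  have c0 : ∀ r, 0 < r → ContinuousAt q₀ r := fun r _ => continuousAt_const
  have c1 : ∀ r, 0 < r → ContinuousAt q₁ r := fun r hr => valley_continuousAt H hr
  have c2 := hq₂.cont
  have c3 : ∀ r, 0 < r → ContinuousAt q₃ r := fun r hr => peak_continuousAt H hr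
  -- upper ends of the zones
  have hend : ∀ {R : EReal} {a b : ℝ}, r₁ ≤ a → a < b → (b : EReal) ≤ max R r₁ →
      (b : EReal) ≤ R := by
    intro R a b hra hab hbR
    rcases le_max_iff.1 hbR with h1 | h1
    · exact h1
    · exact absurd (EReal.coe_le_coe_iff.1 h1) (not_le.2 (hra.trans_lt hab))
  -- the outer zone
  have m3 : ∀ a b : ℝ, 0 < a → max R₂ r₁ ≤ a → a < b → (b : EReal) ≤ ⊤ →
      (∀ r ∈ Ioo a b, |r * q₃ r| < 2 * (φ r) ^ 2 * pp φ r) → FF φ q₃ a ≤ FF φ q₃ b := by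
    intro a b ha hRa hab _ hu
    have hra : r₁ ≤ a := EReal.coe_le_coe_iff.1 ((le_max_right _ _).trans hRa)
    have hR2 : R₂ ≤ a := (le_max_left _ _).trans hRa
    refine mono_of_inner hab (FF_cont hφ c3 ha) (FF_cont hφ c3 (ha.trans hab)) ?_
    intro a' b' ha' hab' hb'
    refine dini_mono hab' (fun r hr =>
      (FF_cont hφ c3 (ha.trans (ha'.trans_le hr.1))).continuousWithinAt) ?_
    intro r hr
    have hra' : a < r := ha'.trans_le hr.1
    have h0 : 0 < r := ha.trans hra'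
    have hrr : r₁ < r := hra.trans_lt hra'
    have hur := hu r ⟨hra', hr.2.trans hb'⟩
    rw [abs_mul, abs_of_pos h0, abs_of_nonneg (p0 r h0)] at hur
    obtain ⟨w, hw, hmax, hg⟩ := outer r hrr (hR2.trans_lt (EReal.coe_lt_coe_iff.2 hra')) (by
      intro v hv
      refine untr hφ h h0 hv ?_
      rw [abs_mul, abs_of_pos h0]
      exact (mul_le_mul_of_nonneg_left ((peak_spec H h0).2 v hv) h0.le).trans hur.le)
    have hpk : q₃ r = |qq h (r • w)| := by
      refine le_antisymm ?_ ((peak_spec H h0).2 w hw)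
      obtain ⟨⟨v, hv, h1⟩, _⟩ := peak_spec H h0
      rw [hq3, h1]
      exact qq_le_of_trS hφ h h0 hv hw (hmax v hv)
    obtain ⟨g', hg1, hg2⟩ := ray_deriv hφ H h0 hw
      (dec _ (by rw [ray_norm hw h0]; exact hrr.le))
      (by rw [abs_mul, abs_of_pos h0, ← hpk]; exact hur.le) hg
    refine ⟨_, g', hg1, hg2, ?_, ?_⟩
    · unfold FF
      rw [hpk, sq_abs]
    · filter_upwards [self_mem_nhdsWithin] with z hz
      have hz0 : 0 < z := h0.trans hz
      refine FF_le hφ hz0 ?_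
      rw [abs_of_nonneg (p0 z hz0)]
      exact (peak_spec H hz0).2 w hw
  -- the middle zone
  have m2 : ∀ a b : ℝ, 0 < a → max R₁ r₁ ≤ a → a < b → (b : EReal) ≤ max R₂ r₁ →
      (∀ r ∈ Ioo a b, |r * q₂ r| < 2 * (φ r) ^ 2 * pp φ r) → FF φ q₂ a ≤ FF φ q₂ b := by
    intro a b ha hRa hab hbR hu
    have hra : r₁ ≤ a := EReal.coe_le_coe_iff.1 ((le_max_right _ _).trans hRa)
    have hR1 : R₁ ≤ a := (le_max_left _ _).trans hRa
    have hbR2 := hend hra hab hbR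
    refine mono_of_inner hab (FF_cont hφ c2 ha) (FF_cont hφ c2 (ha.trans hab)) ?_
    intro a' b' ha' hab' hb'
    refine dini_mono hab' (fun r hr =>
      (FF_cont hφ c2 (ha.trans (ha'.trans_le hr.1))).continuousWithinAt) ?_
    intro r hr
    have hra' : a < r := ha'.trans_le hr.1
    obtain ⟨g', hg1, hg2⟩ := middle r (hra.trans_lt hra')
      (hR1.trans_lt (EReal.coe_lt_coe_iff.2 hra'))
      ((EReal.coe_lt_coe_iff.2 (hr.2.trans hb')).trans_le hbR2)
      (hu r ⟨hra', hr.2.trans hb'⟩)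
    exact ⟨_, g', hg1, hg2, rfl, Eventually.of_forall fun _ => le_rfl⟩
  -- the inner zone
  have m1 : ∀ a b : ℝ, 0 < a → max R₀ r₁ ≤ a → a < b → (b : EReal) ≤ max R₁ r₁ →
      (∀ r ∈ Ioo a b, |r * q₁ r| < 2 * (φ r) ^ 2 * pp φ r) → FF φ q₁ a ≤ FF φ q₁ b := by
    intro a b ha hRa hab hbR hu
    have hra : r₁ ≤ a := EReal.coe_le_coe_iff.1 ((le_max_right _ _).trans hRa)
    have hR0 : R₀ ≤ a := (le_max_left _ _).trans hRa
    have hbR1 := hend hra hab hbR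
    refine mono_of_inner hab (FF_cont hφ c1 ha) (FF_cont hφ c1 (ha.trans hab)) ?_
    intro a' b' ha' hab' hb'
    refine dini_mono_left hab' (fun r hr =>
      (FF_cont hφ c1 (ha.trans (ha'.trans_le hr.1))).continuousWithinAt) ?_
    intro r hr
    have hra' : a < r := ha'.trans hr.1
    have h0 : 0 < r := ha.trans hra'
    have hrr : r₁ < r := hra.trans_lt hra'
    have hur := hu r ⟨hra', hr.2.trans_lt hb'⟩
    rw [abs_mul, abs_of_pos h0, abs_of_nonneg (v0 r h0)] at hur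
    obtain ⟨⟨v, hv, hvv⟩, hvmin⟩ := valley_spec H h0
    obtain ⟨w, hw, hmin, hg⟩ := inner r hrr (hR0.trans_lt (EReal.coe_lt_coe_iff.2 hra'))
      ((EReal.coe_lt_coe_iff.2 (hr.2.trans_lt hb')).trans_le hbR1)
      ⟨v, hv, untr hφ h h0 hv (by
        rw [abs_mul, abs_of_pos h0, ← hvv]
        exact hur.le)⟩
    have hpk : q₁ r = |qq h (r • w)| := by
      refine le_antisymm (hvmin w hw) ?_
      rw [hq1, hvv]
      exact qq_le_of_trS hφ h h0 hw hv (hmin v hv)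
    obtain ⟨g', hg1, hg2⟩ := ray_deriv hφ H h0 hw
      (dec _ (by rw [ray_norm hw h0]; exact hrr.le))
      (by rw [abs_mul, abs_of_pos h0, ← hpk]; exact hur.le) hg
    refine ⟨_, g', hg1, hg2, ?_, ?_⟩
    · unfold FF
      rw [hpk, sq_abs]
    · filter_upwards [Ioo_mem_nhdsLT h0] with z hz
      have hz0 : 0 < z := hz.1
      refine FF_le hφ hz0 ?_
      rw [abs_of_nonneg (v0 z hz0)]
      exact (valley_spec H hz0).2 w hw
  -- the core
  have m0 : ∀ a b : ℝ, 0 < a → (r₁ : EReal) ≤ a → a < b → (b : EReal) ≤ max R₀ r₁ →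
      (∀ r ∈ Ioo a b, |r * q₀ r| < 2 * (φ r) ^ 2 * pp φ r) → FF φ q₀ a ≤ FF φ q₀ b := by
    intro a b ha hRa hab hbR hu
    have hra : r₁ ≤ a := EReal.coe_le_coe_iff.1 hRa
    have hbR0 := hend hra hab hbR
    refine mono_of_inner hab (FF_cont hφ c0 ha) (FF_cont hφ c0 (ha.trans hab)) ?_
    intro a' b' ha' hab' hb'
    refine dini_mono hab' (fun r hr =>
      (FF_cont hφ c0 (ha.trans (ha'.trans_le hr.1))).continuousWithinAt) ?_
    intro r hr
    have hra' : a < r := ha'.trans_le hr.1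
    have h0 : 0 < r := ha.trans hra'
    have hpos := hφ.pos r h0
    have hur := hu r ⟨hra', hr.2.trans hb'⟩
    simp only [hq0, mul_zero, abs_zero] at hur
    have hpp : 0 < pp φ r := by
      by_contra hneg
      have := mul_nonpos_of_nonneg_of_nonpos (show 0 ≤ 2 * (φ r) ^ 2 by positivity)
        (not_lt.1 hneg)
      linarith
    have hw : ‖(EuclideanSpace.single 0 1 : E)‖ = 1 := by simp
    have hn := ray_norm hw h0
    have hs := core (r • EuclideanSpace.single 0 1) (by rw [hn]; exact hra.trans_lt hra')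
      (by rw [hn]; exact (EReal.coe_lt_coe_iff.2 (hr.2.trans hb')).trans_le hbR0)
    refine ⟨_, _, hasDerivAt_FF hφ h0 hn (q := q₀) (hasDerivAt_const r 0), ?_, rfl,
      Eventually.of_forall fun _ => le_rfl⟩
    simp only [hq0]
    have : 0 ≤ pp φ r * ((φ r) ^ 8 * scal (metric φ) (r • EuclideanSpace.single 0 1)) := by
      positivity
    refine mul_nonneg (by positivity) ?_
    linarith
  -- the conclusion
  have A3 := zone_gen hφ (m := m) (q' := q₃) c3 (flat.pp hφ) (tendsto_X flat.one b3) (lim q₃ b3)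
    (R := max R₂ r₁) (R' := ⊤) (fun _ _ => le_rfl)
    (fun x _ hx => absurd hx (not_le.2 (EReal.coe_lt_top x))) m3
  have A2 := zone_gen hφ (m := m) (q' := q₃) c2 (flat.pp hφ) (tendsto_X flat.one b2) (lim q₂ b2)
    (R := max R₁ r₁) (R' := max R₂ r₁) le23 A3 m2
  have A1 := zone_gen hφ (m := m) (q' := q₂) c1 (flat.pp hφ) (tendsto_X flat.one b1) (lim q₁ b1)
    (R := max R₀ r₁) (R' := max R₁ r₁) le12 A2 m1
  have A0 := zone_gen hφ (m := m) (q' := q₁) c0 (flat.pp hφ) (tendsto_X flat.one b0) (lim q₀ b0)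
    (R := (r₁ : EReal)) (R' := max R₀ r₁) le01 A1 m0
  have fin : ∃ r₀, r₁ ≤ r₀ ∧ (φ r₀) ^ 2 * r₀ ≤ 2 * m := by
    have hS := fun (w : E) (hw : ‖w‖ = 1) => absS hφ h hr₁ hw
    have hpr := hφ.pos r₁ hr₁
    have hconv : ∀ w : E, ‖w‖ = 1 → sphereH φ r₁ ≤ |trS φ h (r₁ • w)| →
        2 * (φ r₁) ^ 2 * pp φ r₁ ≤ r₁ * |qq h (r₁ • w)| := by
      intro w hw ht
      rw [← (hS w hw).1, ← (hS w hw).2]
      exact mul_le_mul_of_nonneg_right ht (by positivity)
    rcases lt_or_ge (r₁ : EReal) R₀ with g0 | g0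
    · rcases A0 r₁ hr₁ le_rfl with h2 | h2
      · exact h2
      · exfalso
        have h5 := h2.2
        simp only [hq0, mul_zero, abs_zero] at h5
        have he : ‖(EuclideanSpace.single 0 1 : E)‖ = 1 := by simp
        rw [← (hS _ he).2] at h5
        have h6 := mul_le_mul_of_nonneg_right (t0 g0) (show 0 ≤ (φ r₁) ^ 4 * r₁ by positivity)
        rw [zero_mul] at h6
        linarith
    · rcases lt_or_ge (r₁ : EReal) R₁ with h1 | h1
      · rcases A1 r₁ hr₁ (max_le g0 le_rfl) with h2 | h2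
        · exact h2
        · exfalso
          obtain ⟨⟨w, hw, h3⟩, _⟩ := valley_spec H hr₁
          have h4 := hconv w hw (t1 g0 h1 w hw)
          have h5 := h2.2
          rw [abs_mul, abs_of_pos hr₁, hq1, h3, abs_abs] at h5
          linarith
      · rcases lt_or_ge (r₁ : EReal) R₂ with h1' | h1'
        · rcases A2 r₁ hr₁ (max_le h1 le_rfl) with h2 | h2
          · exact h2
          · exact absurd h2.2 (not_lt.2 (t2 h1 h1'))
        · rcases A3 r₁ hr₁ (max_le h1' le_rfl) with h2 | h2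
          · exact h2
          · exfalso
            obtain ⟨w, hw, ht⟩ := t3 h1'
            have h4 := hconv w hw ht
            have h5 := h2.2
            have h6 := (peak_spec H hr₁).2 w hw
            rw [abs_mul, abs_of_pos hr₁, abs_of_nonneg (p0 r₁ hr₁)] at h5
            have h7 := mul_le_mul_of_nonneg_left h6 hr₁.le
            rw [← hq3] at h7
            linarith
  obtain ⟨r₀, h1, h2⟩ := fin
  refine ⟨r₀, h1, ?_⟩
  rw [sqrt_area hφ (hr₁.trans_le h1)]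
  linarith

end Pool.Agent.H823.PI
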