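import Pool.Agent.H823.PI.Cond
import Pool.Graph.R_pool_sql_team_seeded_c8625f6e.K4H63.PI.Sign5

/-!
# The middle zone: a moving point, or the average
-/

set_option autoImplicit false

namespace Pool.Agent.H823.PI

open scoped BigOperators Topology
open Matrix Filter Set MeasureTheory
open Pool.Agent.K4H63.PI

theorem between_curve {h : E → Matrix (Fin 3) (Fin 3) ℝ} (H : Tensor h) {c : ℝ → E}
    (hc : ∀ s, 0 < s → ‖c s‖ = 1 ∧ DifferentiableAt ℝ c s) :
    Between h (fun s => qq h (s • c s)) where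
  cont := by
    intro r hr
    have h1 : ContinuousAt (fun s : ℝ => s • c s) r :=
      continuousAt_id.smul (hc r hr).2.continuousAt
    exact ContinuousAt.comp (g := qq h) (f := fun s : ℝ => s • c s)
      (H.qq_diff (ray_ne (hc r hr).1 hr)).continuousAt h1
  ge := fun r hr => (valley_spec H hr).2 _ (hc r hr).1
  le := fun r hr => (peak_spec H hr).2 _ (hc r hr).1

theorem between_avg {h : E → Matrix (Fin 3) (Fin 3) ℝ} (H : Tensor h) :
    Between h (sphAvg (qq h)) where
  cont := fun r hr => (sphAvg_hasDerivAt H.qq_smooth hr).continuousAt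
  ge := by
    intro r hr
    obtain ⟨⟨w, hw, h1⟩, h2⟩ := valley_spec H hr
    by_cases h0 : qq h (r • w) = 0
    · rw [h1, h0, abs_zero]; exact abs_nonneg _
    · have hne : ∀ v : E, ‖v‖ = 1 → qq h (r • v) ≠ 0 := by
        intro v hv hz
        have := h2 v hv
        rw [hz, abs_zero, h1] at this
        exact h0 (abs_nonpos_iff.1 this)
      obtain ⟨σ, hσ, hpos⟩ := sign_const H.qq_smooth.continuousOn hr hne
      have hσ1 := abs_sign hσ
      have h3 := sphAvg_mono (r := r) (F := fun _ => valley h r) (G := fun x => σ * qq h x)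
        continuousOn_const (continuousOn_const.mul H.qq_smooth.continuousOn) hr (fun v hv => by
          have e1 : |qq h (r • v)| = σ * qq h (r • v) := by
            rw [← abs_of_pos (hpos v hv), abs_mul, hσ1, one_mul]
          rw [← e1]
          exact h2 v hv)
      rw [sphAvg_const, sphAvg_mul] at h3
      refine h3.trans ((le_abs_self _).trans ?_)
      rw [abs_mul, hσ1, one_mul]
  le := by
    intro r hr
    have h1 := sphAvg_abs_le (F := qq h) (G := fun _ => peak h r) H.qq_smooth.continuousOn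
      continuousOn_const hr (fun w hw => (peak_spec H hr).2 w hw)
    rwa [sphAvg_const] at h1

/-- The condition on a sphere `S` of the middle zone for the average: `tr_g h` is constant on `S`;
or `tr_S h` is constant on `S`; or the average of `(tr_g h)² - |h|²` is at most the value of this
quadratic expression at the rotational average of `h`; or `|tr_S h| ≤ H` on `S` and either
`R_g < 0` on `S`, or `tr_S h` has no zero on `S` and
`R_g (q avg(1 / tr_S h) - 1) ≤ q avg((2 |β|² + |h°|²) / tr_S h)`, `q` the average of `tr_S h`. -/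
def MeanCond (φ : ℝ → ℝ) (h : E → Matrix (Fin 3) (Fin 3) ℝ) (r : ℝ) : Prop :=
  ConstOn (trg (metric φ) h) r ∨ ConstOn (trS φ h) r ∨ AvgCond φ h r ∨
    (∀ w : E, ‖w‖ = 1 → |trS φ h (r • w)| ≤ sphereH φ r) ∧
      ((∀ w : E, ‖w‖ = 1 → scal (metric φ) (r • w) < 0) ∨ InvCond φ h r)

theorem mean_deriv {φ : ℝ → ℝ} (hφ : Good φ) {h : E → Matrix (Fin 3) (Fin 3) ℝ} (H : Tensor h)
    {r : ℝ} (h0 : 0 < r)
    (hdec : ∀ w : E, ‖w‖ = 1 →
      momentumNorm (metric φ) h (r • w) ≤ energy (metric φ) h (r • w))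
    (hu : |r * sphAvg (qq h) r| ≤ 2 * (φ r) ^ 2 * pp φ r)
    (hc : |sphAvg (trS φ h) r| ≤ sphereH φ r → MeanCond φ h r) :
    ∃ g', HasDerivAt (FF φ (sphAvg (qq h))) g' r ∧ 0 ≤ g' := by
  have hen : ‖(EuclideanSpace.single 0 1 : E)‖ = 1 := by simp
  have hp := hφ.pos r h0
  have hun : |sphAvg (trS φ h) r| ≤ sphereH φ r := by
    have hu2 := hu
    rw [sphAvg_trS h h0, sphereH_eq hφ h0, abs_mul,
      abs_of_pos (show (0:ℝ) < ((φ r) ^ 4)⁻¹ by positivity), le_div_iff₀ (by positivity)]
    rw [abs_mul, abs_of_pos h0] at hu2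
    have e : ((φ r) ^ 4)⁻¹ * |sphAvg (qq h) r| * ((φ r) ^ 2 * r) =
        (r * |sphAvg (qq h) r|) * ((φ r) ^ 2)⁻¹ := by
      field_simp
    rw [e, mul_inv_le_iff₀ (by positivity)]
    linarith
  refine ⟨_, hasDerivAt_FF hφ h0 (ray_norm hen h0) (sphAvg_hasDerivAt H.qq_smooth h0), ?_⟩
  refine mul_nonneg (by positivity) ?_
  rcases hc hun with hc | hc | hc | ⟨hc1, hc2 | hc2⟩
  · exact mass_mono hφ H h0 (ray_norm hen h0) hdec hu (Or.inl (avgCond_of_trg hφ H h0 hc))
  · exact mass_mono hφ H h0 (ray_norm hen h0) hdec hu (Or.inl (avgCond_of_trS hφ H h0 hc))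
  · exact mass_mono hφ H h0 (ray_norm hen h0) hdec hu (Or.inl hc)
  · exact mass_mono hφ H h0 (ray_norm hen h0) hdec hu
      (Or.inr fun w hw => ⟨hc1 w hw, Or.inl (hc2 w hw)⟩)
  · exact inv_mono hφ H h0 (ray_norm hen h0) hdec hc1 hc2

end Pool.Agent.H823.PI
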