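import Pool.Graph.R_pool_sql_team_seeded_c8625f6e.K4H63.PI.Peak

/-!
# Combining monotone mass functions in consecutive zones
-/

set_option autoImplicit false

namespace Pool.Agent.H823.PI

open scoped BigOperators Topology
open Matrix Filter Set MeasureTheory
open Pool.Agent.K4H63.PI

/-- Monotonicity from support functions on the left. -/
theorem dini_mono_left {f : ℝ → ℝ} {a b : ℝ} (hab : a ≤ b) (hc : ContinuousOn f (Icc a b))
    (hd : ∀ x ∈ Ioc a b, ∃ g : ℝ → ℝ, ∃ g', HasDerivAt g g' x ∧ 0 ≤ g' ∧ g x = f x ∧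
      ∀ᶠ z in 𝓝[<] x, f z ≤ g z) : f a ≤ f b := by
  have key := dini_mono (f := fun t => -f (-t)) (a := -b) (b := -a) (by linarith)
    (by
      refine ContinuousOn.neg ?_
      refine hc.comp continuous_neg.continuousOn ?_
      intro t ht
      exact ⟨by linarith [ht.2], by linarith [ht.1]⟩)
    (fun x hx => by
      obtain ⟨g, g', h1, h2, h3, h4⟩ := hd (-x) ⟨by linarith [hx.2], by linarith [hx.1]⟩
      refine ⟨fun t => -g (-t), g', ?_, h2, by simp only [h3], ?_⟩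
      · have h5 := HasDerivAt.scomp x h1 (hasDerivAt_neg x)
        have h6 := h5.neg
        refine HasDerivAt.congr_deriv (f := fun t => -g (-t)) h6 ?_
        simp
      · have h5 : Tendsto (fun t : ℝ => -t) (𝓝[>] x) (𝓝[<] (-x)) := by
          refine tendsto_nhdsWithin_iff.2 ⟨?_, ?_⟩
          · exact (continuous_neg.tendsto x).mono_left nhdsWithin_le_nhds
          · filter_upwards [self_mem_nhdsWithin] with t ht
            exact neg_lt_neg (show x < t from ht)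
        filter_upwards [h5.eventually h4] with t ht
        exact neg_le_neg ht)
  simp only [neg_neg] at key
  linarith

/-- The mass function is at most `2 m` and the value is untrapped. -/
def St (φ : ℝ → ℝ) (m : ℝ) (q : ℝ → ℝ) (c : ℝ) : Prop :=
  FF φ q c ≤ 2 * m ∧ |c * q c| < 2 * (φ c) ^ 2 * pp φ c

theorem FF_le {φ : ℝ → ℝ} (hφ : Good φ) {q q' : ℝ → ℝ} {c : ℝ} (hc : 0 < c)
    (h : |q c| ≤ |q' c|) : FF φ q c ≤ FF φ q' c := by
  have hp := hφ.pos c hc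
  have h2 : (q c) ^ 2 ≤ (q' c) ^ 2 := by
    rw [← sq_abs (q c), ← sq_abs (q' c)]
    exact pow_le_pow_left₀ (abs_nonneg _) h 2
  unfold FF
  have h3 : c ^ 3 * (q c) ^ 2 / (4 * (φ c) ^ 2) ≤ c ^ 3 * (q' c) ^ 2 / (4 * (φ c) ^ 2) :=
    div_le_div_of_nonneg_right (mul_le_mul_of_nonneg_left h2 (by positivity)) (by positivity)
  linarith

theorem St.step {φ : ℝ → ℝ} (hφ : Good φ) {m : ℝ} {q q' : ℝ → ℝ} {c : ℝ} (hc : 0 < c)
    (h : |q c| ≤ |q' c|) (hs : St φ m q' c) : St φ m q c := by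
  refine ⟨(FF_le hφ hc h).trans hs.1, lt_of_le_of_lt ?_ hs.2⟩
  rw [abs_mul, abs_mul]
  exact mul_le_mul_of_nonneg_left h (abs_nonneg _)

theorem FF_cont {φ : ℝ → ℝ} (hφ : Good φ) {q : ℝ → ℝ} (hq : ∀ r, 0 < r → ContinuousAt q r)
    {r : ℝ} (hr : 0 < r) : ContinuousAt (FF φ q) r := by
  have hp := hφ.pos r hr
  have c1 := hq r hr
  exact (((hφ.cont hr).pow 2).mul continuousAt_id).mul
    (continuousAt_const.sub ((hφ.pp_cont hr).pow 2)) |>.add
    (((continuousAt_id.pow 3).mul (c1.pow 2)).div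
      (continuousAt_const.mul ((hφ.cont hr).pow 2)) (by positivity))

theorem FF_eq {φ : ℝ → ℝ} (hφ : Good φ) {q : ℝ → ℝ} {r₀ : ℝ} (h00 : 0 < r₀)
    (h : 2 * (φ r₀) ^ 2 * pp φ r₀ = |r₀ * q r₀|) : FF φ q r₀ = (φ r₀) ^ 2 * r₀ := by
  have hpos : 0 < φ r₀ := hφ.pos r₀ h00
  have h5 : (2 * (φ r₀) ^ 2 * pp φ r₀) ^ 2 = (r₀ * q r₀) ^ 2 := by
    rw [h, sq_abs]
  unfold FF YY
  field_simp
  linear_combination -h5

/-- Outermost zone. -/
theorem zone_top {φ : ℝ → ℝ} (hφ : Good φ) {m : ℝ} {q : ℝ → ℝ}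
    (hq : ∀ r, 0 < r → ContinuousAt q r)
    (hp : Tendsto (pp φ) atTop (𝓝 1))
    (hX : Tendsto (fun r => r * q r / (2 * (φ r) ^ 2)) atTop (𝓝 0))
    (hm : Tendsto (FF φ q) atTop (𝓝 (2 * m))) {c : ℝ} (hc : 0 < c)
    (mono : ∀ a b, c ≤ a → a < b → (∀ r ∈ Ioo a b, |r * q r| < 2 * (φ r) ^ 2 * pp φ r) →
      FF φ q a ≤ FF φ q b) :
    (∃ r₀, c ≤ r₀ ∧ (φ r₀) ^ 2 * r₀ ≤ 2 * m) ∨ St φ m q c := by
  by_cases ht : ∃ r₁, c ≤ r₁ ∧ 2 * (φ r₁) ^ 2 * pp φ r₁ ≤ |r₁ * q r₁|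
  · left
    obtain ⟨r₁, h1, h2⟩ := ht
    obtain ⟨r₀, h10, h0eq, hgt⟩ := last_trapped hφ (hc.trans_le h1) hq h2 hp hX
    have h00 : 0 < r₀ := hc.trans_le (h1.trans h10)
    refine ⟨r₀, h1.trans h10, ?_⟩
    rw [← FF_eq hφ h00 h0eq]
    refine ge_of_tendsto hm ?_
    filter_upwards [eventually_gt_atTop r₀] with r hr
    exact mono r₀ r (h1.trans h10) hr fun s hs => hgt s hs.1
  · right
    push Not at ht
    refine ⟨?_, ht c le_rfl⟩
    refine ge_of_tendsto hm ?_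
    filter_upwards [eventually_gt_atTop c] with r hr
    exact mono c r le_rfl hr fun s hs => ht s hs.1.le

/-- A bounded zone. -/
theorem zone_mid {φ : ℝ → ℝ} (hφ : Good φ) {m : ℝ} {q : ℝ → ℝ}
    (hq : ∀ r, 0 < r → ContinuousAt q r) {c d : ℝ} (hc : 0 < c) (hcd : c < d)
    (hd : St φ m q d)
    (mono : ∀ a b, c ≤ a → a < b → b ≤ d →
      (∀ r ∈ Ioo a b, |r * q r| < 2 * (φ r) ^ 2 * pp φ r) → FF φ q a ≤ FF φ q b) :
    (∃ r₀, c ≤ r₀ ∧ (φ r₀) ^ 2 * r₀ ≤ 2 * m) ∨ St φ m q c := by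
  set u : ℝ → ℝ := fun r => 2 * (φ r) ^ 2 * pp φ r - |r * q r| with hu
  have ucont : ∀ r, 0 < r → ContinuousAt u r := fun r hr =>
    ((((hφ.cont hr).pow 2).const_mul 2).mul (hφ.pp_cont hr)).sub
      ((continuousAt_id.mul (hq r hr)).abs)
  have uc : ContinuousOn u (Icc c d) := fun r hr =>
    (ucont r (hc.trans_le hr.1)).continuousWithinAt
  by_cases ht : ∃ r₁ ∈ Icc c d, u r₁ ≤ 0
  · left
    obtain ⟨r₁, h1, h2⟩ := ht
    have hK : IsCompact {r ∈ Icc c d | u r ≤ 0} := by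
      have h3 : IsClosed {r ∈ Icc c d | u r ≤ 0} := by
        have := uc.preimage_isClosed_of_isClosed isClosed_Icc (isClosed_Iic (a := (0:ℝ)))
        exact this
      exact isCompact_Icc.of_isClosed_subset h3 (fun r hr => hr.1)
    obtain ⟨r₀, ⟨h5, h6⟩, h7⟩ := hK.exists_isGreatest ⟨r₁, h1, h2⟩
    have h00 : 0 < r₀ := hc.trans_le h5.1
    have hlt : r₀ < d := by
      refine lt_of_le_of_ne h5.2 fun he => ?_
      rw [he] at h6
      have := hd.2
      simp only [hu] at h6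
      linarith
    have hgt : ∀ r ∈ Ioc r₀ d, 0 < u r := by
      intro r hr
      by_contra hle
      exact absurd (h7 (show r ∈ {r ∈ Icc c d | u r ≤ 0} from
        ⟨⟨h5.1.trans hr.1.le, hr.2⟩, not_lt.1 hle⟩)) (not_le.2 hr.1)
    have hge0 : 0 ≤ u r₀ := by
      have h4 : Tendsto u (𝓝[>] r₀) (𝓝 (u r₀)) :=
        (ucont r₀ h00).tendsto.mono_left nhdsWithin_le_nhds
      refine ge_of_tendsto h4 ?_
      filter_upwards [Ioo_mem_nhdsGT hlt] with r hr
      exact (hgt r ⟨hr.1, hr.2.le⟩).le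
    have h0 : u r₀ = 0 := le_antisymm h6 hge0
    refine ⟨r₀, h5.1, ?_⟩
    rw [← FF_eq hφ (q := q) h00 (by simp only [hu] at h0; linarith)]
    refine (mono r₀ d h5.1 hlt le_rfl fun s hs => ?_).trans hd.1
    have := hgt s ⟨hs.1, hs.2.le⟩
    simp only [hu] at this
    linarith
  · right
    push Not at ht
    refine ⟨(mono c d le_rfl hcd le_rfl fun s hs => ?_).trans hd.1, ?_⟩
    · have := ht s ⟨hs.1.le, hs.2.le⟩
      simp only [hu] at this
      linarith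
    · have := ht c ⟨le_rfl, hcd.le⟩
      simp only [hu] at this
      linarith

/-- One zone `(R, R')`, given the result for the zones outside of it. -/
theorem zone_gen {φ : ℝ → ℝ} (hφ : Good φ) {m : ℝ} {q q' : ℝ → ℝ}
    (hq : ∀ r, 0 < r → ContinuousAt q r)
    (hp : Tendsto (pp φ) atTop (𝓝 1))
    (hX : Tendsto (fun r => r * q r / (2 * (φ r) ^ 2)) atTop (𝓝 0))
    (hm : Tendsto (FF φ q) atTop (𝓝 (2 * m))) {R R' : EReal}
    (hle : ∀ r, 0 < r → |q r| ≤ |q' r|)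
    (prev : ∀ c : ℝ, 0 < c → R' ≤ c → (∃ r₀, c ≤ r₀ ∧ (φ r₀) ^ 2 * r₀ ≤ 2 * m) ∨ St φ m q' c)
    (mono : ∀ a b : ℝ, 0 < a → R ≤ a → a < b → (b : EReal) ≤ R' →
      (∀ r ∈ Ioo a b, |r * q r| < 2 * (φ r) ^ 2 * pp φ r) → FF φ q a ≤ FF φ q b)
    (c : ℝ) (hc : 0 < c) (hR : R ≤ c) :
    (∃ r₀, c ≤ r₀ ∧ (φ r₀) ^ 2 * r₀ ≤ 2 * m) ∨ St φ m q c := by
  rcases le_or_gt R' (c : EReal) with h1 | h1
  · rcases prev c hc h1 with h2 | h2
    · exact Or.inl h2
    · exact Or.inr (h2.step hφ hc (hle c hc))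
  · by_cases htop : R' = ⊤
    · subst htop
      exact zone_top hφ hq hp hX hm hc fun a b ha hab hu =>
        mono a b (hc.trans_le ha) (hR.trans (EReal.coe_le_coe_iff.2 ha)) hab le_top hu
    · have hbot : R' ≠ ⊥ := fun h => by
        rw [h] at h1
        exact absurd h1 not_lt_bot
      obtain ⟨d, rfl⟩ : ∃ d : ℝ, R' = (d : EReal) := ⟨R'.toReal, (EReal.coe_toReal htop hbot).symm⟩
      have hcd : c < d := EReal.coe_lt_coe_iff.1 h1
      have hd0 : 0 < d := hc.trans hcd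
      rcases prev d hd0 le_rfl with ⟨r₀, h2, h3⟩ | h2
      · exact Or.inl ⟨r₀, hcd.le.trans h2, h3⟩
      · exact zone_mid hφ hq hc hcd (h2.step hφ hd0 (hle d hd0)) fun a b ha hab hb hu =>
          mono a b (hc.trans_le ha) (hR.trans (EReal.coe_le_coe_iff.2 ha)) hab
            (EReal.coe_le_coe_iff.2 hb) hu

/-- Monotonicity on an open interval from monotonicity on the smaller closed intervals. -/
theorem mono_of_inner {f : ℝ → ℝ} {a b : ℝ} (hab : a < b) (ha : ContinuousAt f a)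
    (hb : ContinuousAt f b) (h : ∀ a' b', a < a' → a' ≤ b' → b' < b → f a' ≤ f b') :
    f a ≤ f b := by
  set c := (a + b) / 2 with hc
  have h1 : f a ≤ f c := by
    have h2 : Tendsto f (𝓝[>] a) (𝓝 (f a)) := ha.tendsto.mono_left nhdsWithin_le_nhds
    refine le_of_tendsto h2 ?_
    filter_upwards [Ioo_mem_nhdsGT (show a < c by rw [hc]; linarith)] with x hx
    exact h x c hx.1 hx.2.le (by rw [hc]; linarith)
  have h3 : f c ≤ f b := by
    have h2 : Tendsto f (𝓝[<] b) (𝓝 (f b)) := hb.tendsto.mono_left nhdsWithin_le_nhds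
    refine ge_of_tendsto h2 ?_
    filter_upwards [Ioo_mem_nhdsLT (show c < b by rw [hc]; linarith)] with x hx
    exact h c x (by rw [hc]; linarith) hx.1.le hx.2
  exact h1.trans h3

end Pool.Agent.H823.PI
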