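import Pool.Agent.H823.PI.Mono

/-!
# The three mass functions: minimum, moving curve, maximum
-/

set_option autoImplicit false

namespace Pool.Agent.H823.PI

open scoped BigOperators Topology
open Matrix Filter Set MeasureTheory
open Pool.Agent.K4H63.PI

/-- The minimum of `|qq h|` over the centred sphere of radius `r`. -/
noncomputable def valley (h : E → Matrix (Fin 3) (Fin 3) ℝ) (r : ℝ) : ℝ :=
  sInf ((fun ω : Metric.sphere (0 : E) 1 => |qq h (r • (ω : E))|) '' univ)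

theorem valley_spec {h : E → Matrix (Fin 3) (Fin 3) ℝ} (H : Tensor h) {r : ℝ} (hr : 0 < r) :
    (∃ w : E, ‖w‖ = 1 ∧ valley h r = |qq h (r • w)|) ∧
      ∀ w : E, ‖w‖ = 1 → valley h r ≤ |qq h (r • w)| := by
  have hc : ContinuousOn (fun ω : Metric.sphere (0 : E) 1 => |qq h (r • (ω : E))|) univ :=
    (sph_cont H.qq_smooth.continuousOn hr).abs.continuousOn
  have hne : (univ : Set (Metric.sphere (0 : E) 1)).Nonempty :=
    ⟨⟨EuclideanSpace.single 0 1, by simp⟩, trivial⟩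
  obtain ⟨ω, _, h1, h2⟩ := isCompact_univ.exists_sInf_image_eq_and_le hne hc
  refine ⟨⟨ω, sphere_norm ω, h1⟩, fun w hw => ?_⟩
  have := h2 ⟨w, by simp [hw]⟩ trivial
  unfold valley
  rw [h1]
  exact this

theorem valley_continuousAt {h : E → Matrix (Fin 3) (Fin 3) ℝ} (H : Tensor h) {r : ℝ}
    (hr : 0 < r) : ContinuousAt (valley h) r := by
  have h1 : Continuous (fun p : ℝ × Metric.sphere (0 : E) 1 =>
      |qq h (max p.1 (r / 2) • (p.2 : E))|) := by
    refine Continuous.abs ?_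
    refine H.qq_smooth.continuousOn.comp_continuous (by fun_prop) ?_
    rintro ⟨s, ω⟩
    exact ray_ne (sphere_norm ω) (lt_of_lt_of_le (by positivity) (le_max_right _ _))
  have h2 := IsCompact.continuous_sInf (K := (univ : Set (Metric.sphere (0 : E) 1)))
    (f := fun (s : ℝ) (ω : Metric.sphere (0 : E) 1) => |qq h (max s (r / 2) • (ω : E))|)
    isCompact_univ h1
  refine h2.continuousAt.congr ?_
  filter_upwards [Ioi_mem_nhds (show r / 2 < r by linarith)] with s hs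
  unfold valley
  rw [max_eq_left (le_of_lt hs)]

/-- `(tr_S h) div_S β + H (2 |β|² + |h°|²) / 2 ≥ 0` at the point `r w`. -/
def GoodAt (φ : ℝ → ℝ) (h : E → Matrix (Fin 3) (Fin 3) ℝ) (r : ℝ) (w : E) : Prop :=
  0 ≤ trS φ h (r • w) * divS φ h (r • w) + meanCurv φ (r • w) * transS φ h (r • w) / 2

/-- The rate of change of `tr_S h` in the directions tangential to the spheres along the curve
`s ↦ s c(s)`, with respect to the distance of the spheres. -/
noncomputable def slide (φ : ℝ → ℝ) (h : E → Matrix (Fin 3) (Fin 3) ℝ) (c : ℝ → E) (r : ℝ) : ℝ :=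
  ((φ r) ^ 2)⁻¹ * deriv (fun s => trS φ h (r • c s)) r

/-- The condition along a curve. -/
def CurveAt (φ : ℝ → ℝ) (h : E → Matrix (Fin 3) (Fin 3) ℝ) (c : ℝ → E) (r : ℝ) : Prop :=
  0 ≤ trS φ h (r • c r) * (divS φ h (r • c r) + slide φ h c r) +
    meanCurv φ (r • c r) * transS φ h (r • c r) / 2

theorem absS {φ : ℝ → ℝ} (hφ : Good φ) (h : E → Matrix (Fin 3) (Fin 3) ℝ) {r : ℝ} (hr : 0 < r)
    {w : E} (hw : ‖w‖ = 1) : |trS φ h (r • w)| * ((φ r) ^ 4 * r) = r * |qq h (r • w)| ∧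
      sphereH φ r * ((φ r) ^ 4 * r) = 2 * (φ r) ^ 2 * pp φ r := by
  have hp := hφ.pos r hr
  constructor
  · unfold trS
    rw [ray_norm hw hr, abs_mul, abs_of_pos (show (0:ℝ) < ((φ r) ^ 4)⁻¹ by positivity)]
    field_simp
  · rw [sphereH_eq hφ hr]
    field_simp

theorem untr {φ : ℝ → ℝ} (hφ : Good φ) (h : E → Matrix (Fin 3) (Fin 3) ℝ) {r : ℝ} (hr : 0 < r)
    {w : E} (hw : ‖w‖ = 1) (hu : |r * qq h (r • w)| ≤ 2 * (φ r) ^ 2 * pp φ r) :
    |trS φ h (r • w)| ≤ sphereH φ r := by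
  have hp := hφ.pos r hr
  obtain ⟨u1, u2⟩ := absS hφ h hr hw
  refine le_of_mul_le_mul_right ?_ (show 0 < (φ r) ^ 4 * r by positivity)
  rw [u1, u2]
  rw [abs_mul, abs_of_pos hr] at hu
  exact hu

theorem untr' {φ : ℝ → ℝ} (hφ : Good φ) (h : E → Matrix (Fin 3) (Fin 3) ℝ) {r : ℝ} (hr : 0 < r)
    {w : E} (hw : ‖w‖ = 1) (hu : |trS φ h (r • w)| ≤ sphereH φ r) :
    |r * qq h (r • w)| ≤ 2 * (φ r) ^ 2 * pp φ r := by
  have hp := hφ.pos r hr
  obtain ⟨u1, u2⟩ := absS hφ h hr hw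
  rw [abs_mul, abs_of_pos hr, ← u1, ← u2]
  exact mul_le_mul_of_nonneg_right hu (by positivity)

theorem qq_le_of_trS {φ : ℝ → ℝ} (hφ : Good φ) (h : E → Matrix (Fin 3) (Fin 3) ℝ) {r : ℝ}
    (hr : 0 < r) {v w : E} (hv : ‖v‖ = 1) (hw : ‖w‖ = 1)
    (hu : |trS φ h (r • v)| ≤ |trS φ h (r • w)|) : |qq h (r • v)| ≤ |qq h (r • w)| := by
  have hp := hφ.pos r hr
  have h2 := mul_le_mul_of_nonneg_right hu (show 0 ≤ (φ r) ^ 4 * r by positivity)
  rw [(absS hφ h hr hv).1, (absS hφ h hr hw).1] at h2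
  exact le_of_mul_le_mul_left h2 hr

/-- The derivative of the mass function along a fixed ray at a good untrapped point. -/
theorem ray_deriv {φ : ℝ → ℝ} (hφ : Good φ) {h : E → Matrix (Fin 3) (Fin 3) ℝ} (H : Tensor h)
    {r : ℝ} (h0 : 0 < r) {w : E} (hw : ‖w‖ = 1)
    (dec : momentumNorm (metric φ) h (r • w) ≤ energy (metric φ) h (r • w))
    (hu : |r * qq h (r • w)| ≤ 2 * (φ r) ^ 2 * pp φ r) (hg : GoodAt φ h r w) :
    ∃ g', HasDerivAt (FF φ (fun s : ℝ => qq h (s • w))) g' r ∧ 0 ≤ g' := by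
  have hp := hφ.pos r h0
  have hx := ray_ne hw h0
  have hn := ray_norm hw h0
  have dq : HasDerivAt (fun s : ℝ => qq h (s • w)) (dr (qq h) (r • w)) r :=
    hasDerivAt_ray hw h0 (H.qq_diff hx)
  refine ⟨_, hasDerivAt_FF hφ h0 hn dq, ?_⟩
  have hu' : |‖r • w‖ * qq h (r • w)| ≤ 2 * (φ ‖r • w‖) ^ 2 * pp φ ‖r • w‖ := by
    rw [hn]; exact hu
  have k1 := key hφ H hx dec hu'
  have k2 := (cond_iff hφ h hx).1 hg
  rw [hn] at k1 k2
  refine mul_nonneg (by positivity) ?_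
  unfold pp at k2 ⊢
  linarith

theorem slide_eq {φ : ℝ → ℝ} {h : E → Matrix (Fin 3) (Fin 3) ℝ}
    {c : ℝ → E} (hc1 : ∀ s, 0 < s → ‖c s‖ = 1) {r : ℝ} (hr : 0 < r) :
    slide φ h c r = ((φ r) ^ 6)⁻¹ * deriv (fun s => qq h (r • c s)) r := by
  unfold slide
  have h1 : (fun s => trS φ h (r • c s)) =ᶠ[𝓝 r] fun s => ((φ r) ^ 4)⁻¹ * qq h (r • c s) := by
    filter_upwards [Ioi_mem_nhds hr] with s hs
    unfold trS
    rw [ray_norm (hc1 s hs) hr]
  rw [h1.deriv_eq, deriv_const_mul_field, ← mul_assoc, ← mul_inv, ← pow_add]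

/-- The derivative of the mass function along a curve. -/
theorem curve_deriv {φ : ℝ → ℝ} (hφ : Good φ) {h : E → Matrix (Fin 3) (Fin 3) ℝ} (H : Tensor h)
    {c : ℝ → E} (hc1 : ∀ s, 0 < s → ‖c s‖ = 1) {r : ℝ} (h0 : 0 < r)
    (hcd : DifferentiableAt ℝ c r)
    (dec : momentumNorm (metric φ) h (r • c r) ≤ energy (metric φ) h (r • c r))
    (hu : |r * qq h (r • c r)| ≤ 2 * (φ r) ^ 2 * pp φ r) (hg : CurveAt φ h c r) :
    ∃ g', HasDerivAt (FF φ (fun s : ℝ => qq h (s • c s))) g' r ∧ 0 ≤ g' := by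
  have hp := hφ.pos r h0
  have hw := hc1 r h0
  have hx := ray_ne hw h0
  have hn := ray_norm hw h0
  have dF := (H.qq_diff hx).hasFDerivAt
  have a1 : HasDerivAt (fun s : ℝ => s • c s) (r • deriv c r + (1:ℝ) • c r) r :=
    (hasDerivAt_id r).smul hcd.hasDerivAt
  have a2 : HasDerivAt (fun s : ℝ => r • c s) (r • deriv c r) r := hcd.hasDerivAt.const_smul r
  have d1 : HasDerivAt (fun s : ℝ => qq h (s • c s))
      (fderiv ℝ (qq h) (r • c r) (r • deriv c r + (1:ℝ) • c r)) r :=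
    HasFDerivAt.comp_hasDerivAt (f := fun s : ℝ => s • c s) r dF a1
  have d2 : HasDerivAt (fun s : ℝ => qq h (r • c s))
      (fderiv ℝ (qq h) (r • c r) (r • deriv c r)) r :=
    HasFDerivAt.comp_hasDerivAt (f := fun s : ℝ => r • c s) r dF a2
  have e1 : fderiv ℝ (qq h) (r • c r) (r • deriv c r + (1:ℝ) • c r) =
      dr (qq h) (r • c r) + deriv (fun s : ℝ => qq h (r • c s)) r := by
    rw [d2.deriv, map_add, one_smul, dr_eq, hn, smul_smul, inv_mul_cancel₀ h0.ne', one_smul]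
    ring
  rw [e1] at d1
  refine ⟨_, hasDerivAt_FF hφ h0 hn d1, ?_⟩
  have hu' : |‖r • c r‖ * qq h (r • c r)| ≤ 2 * (φ ‖r • c r‖) ^ 2 * pp φ ‖r • c r‖ := by
    rw [hn]; exact hu
  have k1 := key hφ H hx dec hu'
  unfold CurveAt at hg
  rw [slide_eq hc1 h0, meanCurv_eq hφ hx] at hg
  unfold trS divS transS at hg
  rw [hn] at k1 hg
  set T := deriv (fun s : ℝ => qq h (r • c s)) r with hT
  have e : ((φ r) ^ 4)⁻¹ * qq h (r • c r) * (((φ r) ^ 6)⁻¹ * divMixed h (r • c r) +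
      ((φ r) ^ 6)⁻¹ * T) +
      2 * pp φ r / ((φ r) ^ 2 * r) * (((φ r) ^ 8)⁻¹ * transverse h (r • c r)) / 2 =
      (r * qq h (r • c r) * (divMixed h (r • c r) + T) + pp φ r * transverse h (r • c r)) *
        ((φ r) ^ 10 * r)⁻¹ := by
    field_simp
  rw [e] at hg
  have k2 : 0 ≤ r * qq h (r • c r) * (divMixed h (r • c r) + T) +
      pp φ r * transverse h (r • c r) := nonneg_of_mul_nonneg_left hg (by positivity)
  refine mul_nonneg (by positivity) ?_
  unfold pp at k2 ⊢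
  nlinarith [k1, k2]

end Pool.Agent.H823.PI
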